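import Pool.Agent.Lib.NMX.LBFinal

set_option autoImplicit false

namespace Pool.Agent.Results.MP_014201_co.CubeMinus

open Pool.Agent.Lib.NMX Filter Topology

theorem result (p : ℕ → unitInterval) :
    Tendsto (fun n : ℕ => (SimpleGraph.binomialRandom (Fin n) (p n)).real
      {M | Multiplicative M ↔ cubeMinus.Free M}) atTop (𝓝 1) := by
  simp only [LB.free_iff]
  exact LB.iff_cub p

end Pool.Agent.Results.MP_014201_co.CubeMinus
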