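import Pool.Agent.Lib.NMX.HSMain

set_option autoImplicit false

namespace Pool.Agent.Results.MP_014201_co.HellySquares

open Pool.Agent.Lib.NMX Pool.Agent.Lib.NMX.HS

/-- A finite graph all of whose square classes are bipartite Helly graphs is multiplicative. -/
theorem result (V : Type) [Finite V] (M : SimpleGraph V)
    (h : ∀ e ∈ M.edgeSet, BipHelly (sqClass M e)) : Multiplicative M :=
  main h

/-! Side theorems: graphs that satisfy the hypothesis. -/

/-- Square-free graphs (Wrochna 2017). -/
theorem side_square_free (V : Type) (M : SimpleGraph V) (h : ∀ a b c d, ¬ Square M a b c d)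
    (e : Sym2 V) : BipHelly (sqClass M e) :=
  of_one (fun _ _ _ _ _ _ q => absurd q (h _ _ _ _)) e

/-- Graphs in which every edge lies in at most one four-cycle (Tardif and Wrochna 2019). -/
theorem side_one_square (V : Type) (M : SimpleGraph V)
    (h : ∀ a b c d c' d', Square M a b c d → Square M a b c' d' → c = c' ∧ d = d')
    (e : Sym2 V) : BipHelly (sqClass M e) :=
  of_one h e

/-- A class whose components are complete bipartite. -/
theorem side_complete (V : Type) (B : SimpleGraph V)
    (h : ∀ x y z w, B.Adj x y → B.Adj y z → B.Adj z w → B.Adj x w) : BipHelly B :=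
  of_three h

/-- Graphs whose subgraphs on at most ten vertices have fewer than `9/7` edges per vertex. -/
theorem side_sparse (V : Type) (M : SimpleGraph V)
    (h : ∀ (W : Finset V) (E : Finset (Sym2 V)), W.card ≤ 10 → W.Nonempty →
      (∀ e ∈ E, e ∈ M.edgeSet ∧ ∀ v ∈ e, v ∈ W) → 7 * E.card < 9 * W.card)
    (e : Sym2 V) : BipHelly (sqClass M e) :=
  bipHelly_iff.2 (sqClass_eq (M := M) e ▸ LB.Sparse.nice h _)

end Pool.Agent.Results.MP_014201_co.HellySquares
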