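import Pool.Agent.Lib.NMX.PRKneser

set_option autoImplicit false

namespace Pool.Agent.Results.MP_014201_co.Mycielskian

open Pool.Agent.Lib.NMX

/-- A finite graph that receives a homomorphism from a generalized Mycielskian of an odd cycle is
not multiplicative. -/
theorem result (V : Type) [Finite V] (M : SimpleGraph V) (r k : ℕ) (hk : 0 < k)
    (f : myc r (SimpleGraph.cycleGraph (2 * k + 1)) →g M) : ¬ Multiplicative M :=
  PR.not_mult hk f

/-! Side theorems. -/

/-- A graph with a clique on four vertices is not multiplicative. -/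
theorem side_clique (V : Type) [Finite V] (M : SimpleGraph V) (h : ¬ M.CliqueFree 4) :
    ¬ Multiplicative M :=
  PR.not_mult_clique h

/-- Kneser graphs of chromatic number at least four satisfy the hypothesis. -/
theorem side_kneser (n k : ℕ) (hk : 1 ≤ k) (hn : 2 * k + 2 ≤ n) :
    Nonempty (myc (2 * n - 1) (SimpleGraph.cycleGraph (2 * k + 1)) →g kneser n k) :=
  Kn35.myc_to_kneser hk hn

/-- The witnesses have arbitrarily large chromatic number. -/
theorem side_product (r k n : ℕ) (hk : 0 < k) : ∃ (A B : Type) (_ : Finite A) (_ : Finite B)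
    (G : SimpleGraph A) (H : SimpleGraph B), ¬ G.Colorable n ∧ ¬ H.Colorable n ∧
    Nonempty (dprod G H →g myc r (SimpleGraph.cycleGraph (2 * k + 1))) :=
  PR.exists_prod r k n hk

end Pool.Agent.Results.MP_014201_co.Mycielskian
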