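import Mathlib
import Pool.Agent.Lib.NMX.Defs
import Pool.Agent.Lib.NMX.CoindDefs
import Pool.Agent.Lib.NMX.CoindKlein
import Pool.Agent.Lib.NMX.CoindDic

set_option autoImplicit false

namespace Pool.Agent.Results.MP_014201_co.TwistedSquare

open Pool.Agent.Lib.NMX

/-- Twisted squares of balanced bipartite voltage graphs are multiplicative. -/
theorem result (Γ A B : Type) [Group Γ] (Λ : Subgroup Γ) (hΛ : Λ.index = 2)
    (hI : ∀ t : Γ, t ∉ Λ → t * t ≠ 1) (hS : Splits Λ)
    (E : A → B → Prop) (s : A → B → Γ) (hs : ∀ a b, E a b → s a b ∈ Λ) (hb : Balanced E s) :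
    Multiplicative (voltGraph Λ E s) :=
  Coind.voltGraph_multiplicative hΛ hI hS hs hb

/-! Side theorems: the hypotheses on the group are satisfiable, and what the family contains. -/

/-- Cyclic groups split. -/
theorem side_cyclic (Γ : Type) [Group Γ] [IsCyclic Γ] (Λ : Subgroup Γ) (hΛ : Λ.index = 2) :
    Splits Λ :=
  Coind.splits_of_isCyclic hΛ

/-- The dicyclic group of order `4 n` with its cyclic subgroup of index two. -/
theorem side_dicyclic (n : ℕ) (hn : n ≠ 0) :
    (Coind.rot n).index = 2 ∧ (∀ t, t ∉ Coind.rot n → t * t ≠ 1) ∧ Splits (Coind.rot n) :=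
  ⟨Coind.rot_index n, Coind.rot_no_involution hn, Coind.splits_rot hn⟩

/-- The dicyclic group of order `8 m` with a dicyclic subgroup of index two. -/
theorem side_dicyclic_sub (m : ℕ) (hm : m ≠ 0) :
    (Coind.dic m).index = 2 ∧ (∀ t, t ∉ Coind.dic m → t * t ≠ 1) ∧ Splits (Coind.dic m) :=
  ⟨Coind.dic_index m, Coind.dic_no_involution hm, Coind.splits_dic hm⟩

/-- The circular cliques below four (among them `K₃` and the odd cycles) are homomorphically
equivalent to members of the family, which reproves that they are multiplicative. -/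
theorem side_circular (p q : ℕ) (h : p < 4 * q) : Multiplicative (circClique p q) :=
  Coind.circClique_mult h

/-- With the quaternion group of order eight: a finite multiplicative graph which has no
homomorphism to a graph without four-cycles, nor to a circular clique below four, nor to any graph
with an orientation in which all four-cycles have an even number of forward edges. -/
theorem side_quaternion : ∃ (V : Type) (_ : Finite V) (M : SimpleGraph V), Multiplicative M ∧
    (∀ (W : Type) (F : SimpleGraph W), Coind.EvenOri F → IsEmpty (M →g F)) ∧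
    (∀ (W : Type) (F : SimpleGraph W), (∀ x y x' y', F.Adj x y → F.Adj y x' → F.Adj x' y' →
      F.Adj y' x → x = x' ∨ y = y') → IsEmpty (M →g F)) ∧
    (∀ p q : ℕ, p < 4 * q → IsEmpty (M →g circClique p q)) := by
  obtain ⟨V, hV, M, h1, h2⟩ := Coind.exists_mult_not_evenOri
  exact ⟨V, hV, M, h1, fun W F h => ⟨fun f => h2 (h.of_hom f)⟩,
    fun W F h => ⟨fun f => h2 ((Coind.evenOri_of_squareFree F h).of_hom f)⟩,
    fun p q h => ⟨fun f => h2 ((Coind.evenOri_circClique h).of_hom f)⟩⟩

end Pool.Agent.Results.MP_014201_co.TwistedSquare
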